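import Pool.Agent.H.MP_f4f44f_al.A

set_option autoImplicit false

namespace Pool.Agent.Results.MP_f4f44f_al.Counter

/-- The arc component `T(A)*` of the identity in the homeomorphism group of `A`: the identity together with the end points of arcs
starting at the identity.  The topology on homeomorphisms is the one induced from `C(A, A)` (compact-open topology, i.e. uniform
convergence for a compact metric space `A`). -/
def Arc (A : Type) [TopologicalSpace A] : Set (A ≃ₜ A) :=
  {φ | φ = 1 ∨ ∃ γ : unitInterval → A ≃ₜ A, Function.Injective γ ∧ Continuous (fun t => (γ t : C(A, A))) ∧ γ 0 = 1 ∧ γ 1 = φ}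

/-- There is a compact metric space `A` such that no finite subset of `T(A)*` generates a dense subgroup of `T(A)*`. -/
theorem result : ∃ (A : Type) (_ : MetricSpace A), CompactSpace A ∧ ∀ s : Finset (A ≃ₜ A), (∀ φ ∈ s, φ ∈ Arc A) →
    ∃ φ ∈ Arc A, (φ : C(A, A)) ∉
      closure ((fun g : A ≃ₜ A => (g : C(A, A))) '' (Subgroup.closure (s : Set (A ≃ₜ A)) : Set (A ≃ₜ A))) :=
  ⟨H.MP_f4f44f_al.A, TopologicalSpace.metrizableSpaceMetric _, inferInstanceAs (CompactSpace H.MP_f4f44f_al.A), H.MP_f4f44f_al.main⟩

end Pool.Agent.Results.MP_f4f44f_al.Counter
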